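import Pool.Agent.H14R2.RC.S.HIGHA
import Pool.Agent.H14R2.RC.S.HIGHC
import Pool.Agent.H14R2.RC.S.HIGHD
import Pool.Agent.H14R2.RC.S.HIGHE

namespace RC14
open scoped InnerProductSpace
open Finset

variable {V : Type*} [NormedAddCommGroup V] [InnerProductSpace ℂ V] [FiniteDimensional ℂ V]

/-- characters of representations without vectors invariant under large stabilisers -/
theorem HIGH (n : ℕ) (hn : 1000 ≤ n) (ρ : Alt n →* (V ≃ₗᵢ[ℂ] V)) (hirr : Irr ρ ⊤)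
    (hno : ∀ K : Finset (Fin n), 100 * K.card ≤ n → ∀ v : V,
      (∀ h : Alt n, (∀ a ∈ K, (h : Equiv.Perm (Fin n)) a = a) → ρ h v = v) → v = 0)
    (g : Alt n) (hg : 2 * nfix (g : Equiv.Perm (Fin n)) ≤ n) (m : ℕ) (hm : 100 * m ^ 2 ≤ n) :
    ‖chr ρ g‖ ^ 2 ≤ 2 * (1 - 1 / 8400 : ℝ) ^ m * (Module.finrank ℂ V : ℝ) ^ 2 := by
  have hV : ∃ v : V, v ≠ 0 := by
    by_contra hcon
    push Not at hcon
    apply hirr.1
    rw [Submodule.eq_bot_iff]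
    intro v _
    exact hcon v
  obtain ⟨v, hv, h3⟩ := HIGHA n hn ρ hV hno
  have h36 := HIGHC n (by omega) ρ v
  have c3 : 0 < (Fintype.card (Tup 3 n) : ℝ) := by
    have : Nonempty (Tup 3 n) := ⟨Fin.castLEEmb (by omega)⟩
    exact_mod_cast Fintype.card_pos
  have c6 : 0 < (Fintype.card (Tup 6 n) : ℝ) := by
    have : Nonempty (Tup 6 n) := ⟨Fin.castLEEmb (by omega)⟩
    exact_mod_cast Fintype.card_pos
  have hc : (1 / 2800 : ℝ) * ‖v‖ ^ 2 * Fintype.card (Tup 6 n) ≤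
      ∑ s : Tup 6 n, ‖ρ (c33 s) v - v‖ ^ 2 := by
    rw [← le_div_iff₀ c6]
    have h3' : (1 / 700 : ℝ) * ‖v‖ ^ 2 ≤
        (∑ s : Tup 3 n, ‖ρ (RC14.c3 s) v - v‖ ^ 2) / Fintype.card (Tup 3 n) := by
      rw [le_div_iff₀ c3]
      exact h3
    linarith
  have hD := fun m => HIGHD n ρ hirr (1 / 2800) (by omega) v hv hc m
  have hA : ∑ s : Fin m → Tup 6 n, hs ((List.ofFn fun i => P3 ρ (c33 (s i))).prod) ≤
      (Module.finrank ℂ V * (1 - (1 / 2800 : ℝ) / 3) ^ m) * (Fintype.card (Tup 6 n) : ℝ) ^ m :=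
    hD m
  have hE := HIGHE n ρ g hg m hm (by omega) _ hA
  refine hE.trans (le_of_eq ?_)
  have : (1 - (1 / 2800 : ℝ) / 3) = 1 - 1 / 8400 := by norm_num
  rw [this]
  ring

end RC14
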