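import Pool.Agent.H14R2.RC.S.FREE

namespace RC14
open scoped InnerProductSpace
open Finset

namespace TRW

variable {G : Type*} [Group G]
variable {V : Type*} [NormedAddCommGroup V] [InnerProductSpace ℂ V]

/-- the operator of a word -/
noncomputable def wop (ρ : G →* (V ≃ₗᵢ[ℂ] V)) (x : Fin 8 → G) (l : List (Fin 8 × Bool)) :
    Module.End ℂ V := op ρ (FreeGroup.lift x (FreeGroup.mk l))

lemma wop_nil (ρ : G →* (V ≃ₗᵢ[ℂ] V)) (x : Fin 8 → G) : wop ρ x [] = 1 := by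
  rw [wop, ← FreeGroup.one_eq_mk, map_one, op_one]

lemma wop_cons (ρ : G →* (V ≃ₗᵢ[ℂ] V)) (x : Fin 8 → G) (a : Fin 8 × Bool)
    (l : List (Fin 8 × Bool)) : wop ρ x (a :: l) = wop ρ x [a] * wop ρ x l := by
  rw [wop, wop, wop, ← op_mul, ← map_mul, FreeGroup.mul_mk]
  rfl

lemma Tx_eq (ρ : G →* (V ≃ₗᵢ[ℂ] V)) (x : Fin 8 → G) :
    Tx ρ x = (1 / 16 : ℂ) • ∑ a : Fin 8 × Bool, wop ρ x [a] := by
  rw [Tx]
  congr 1
  rw [Fintype.sum_prod_type]
  refine Finset.sum_congr rfl fun i _ => ?_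
  rw [Fintype.sum_bool]
  simp [wop]

lemma Tx_pow (ρ : G →* (V ≃ₗᵢ[ℂ] V)) (x : Fin 8 → G) (t : ℕ) :
    Tx ρ x ^ t = ((1 / 16 : ℂ)) ^ t • ∑ w : Fin t → Fin 8 × Bool, wop ρ x (List.ofFn w) := by
  induction t with
  | zero => simp [wop_nil]
  | succ t ih =>
    rw [pow_succ', ih, Tx_eq, smul_mul_smul_comm, ← pow_succ']
    congr 1
    rw [Finset.sum_mul_sum, ← Fintype.sum_prod_type',
      ← (Fin.consEquiv (fun _ : Fin (t + 1) => Fin 8 × Bool)).sum_comp]
    refine Finset.sum_congr rfl fun p _ => ?_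
    rw [← wop_cons]
    simp [Fin.consEquiv, List.ofFn_succ]

end TRW

variable {G : Type*} [Group G] [Fintype G]
variable {V : Type*} [NormedAddCommGroup V] [InnerProductSpace ℂ V] [FiniteDimensional ℂ V]

/-- trace of an even power of `Tx` from bounds of the characters at nontrivial words -/
theorem TRW (ρ : G →* (V ≃ₗᵢ[ℂ] V)) (x : Fin 8 → G) (L : ℕ) (β : ℝ) (hβ : 0 ≤ β)
    (h : ∀ u : FreeGroup (Fin 8), u ≠ 1 → u.norm ≤ 2 * L →
      ‖chr ρ (FreeGroup.lift x u)‖ ≤ β * Module.finrank ℂ V) :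
    rtr (Tx ρ x ^ (2 * L)) ≤ ((1 / 4 : ℝ) ^ L + β) * Module.finrank ℂ V := by
  classical
  set d : ℝ := (Module.finrank ℂ V : ℝ) with hd
  have hd0 : 0 ≤ d := by positivity
  rw [rtr, TRW.Tx_pow, map_smul, map_sum]
  have h16 : ((1 / 16 : ℂ)) ^ (2 * L) = (((1 / 256 : ℝ) ^ L : ℝ) : ℂ) := by
    rw [pow_mul]; push_cast; norm_num
  rw [h16, smul_eq_mul, Complex.re_ofReal_mul, Complex.re_sum]
  have key : ∀ w : Fin (2 * L) → Fin 8 × Bool,
      (LinearMap.trace ℂ V (TRW.wop ρ x (List.ofFn w))).re ≤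
        (if FreeGroup.mk (List.ofFn w) = 1 then d else 0) + β * d := by
    intro w
    split_ifs with hw
    · rw [TRW.wop, hw, map_one, op_one]
      have : (LinearMap.trace ℂ V (1 : Module.End ℂ V)) = (Module.finrank ℂ V : ℂ) := by
        simp
      rw [this, Complex.natCast_re]
      nlinarith [mul_nonneg hβ hd0]
    · rw [zero_add]
      refine le_trans (Complex.re_le_norm _) ?_
      refine h _ hw ?_
      refine le_trans (FreeGroup.norm_mk_le) ?_
      simp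
  have hsum := Finset.sum_le_sum fun (w : Fin (2 * L) → Fin 8 × Bool) (_ : w ∈ univ) => key w
  rw [Finset.sum_add_distrib, ← Finset.sum_filter, Finset.sum_const, Finset.sum_const,
    Finset.card_univ] at hsum
  have hF := FREE L
  rw [Nat.card_eq_fintype_card, Fintype.card_subtype] at hF
  have hF' : ((#{w : Fin (2 * L) → Fin 8 × Bool | FreeGroup.mk (List.ofFn w) = 1} : ℕ) : ℝ) ≤
      64 ^ L := by exact_mod_cast hF
  have hcard : (Fintype.card (Fin (2 * L) → Fin 8 × Bool) : ℝ) = 256 ^ L := by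
    simp only [Fintype.card_fun, Fintype.card_prod, Fintype.card_fin, Fintype.card_bool]
    push_cast
    rw [pow_mul]; norm_num
  simp only [nsmul_eq_mul] at hsum
  rw [hcard] at hsum
  have h256 : (1 / 256 : ℝ) ^ L * 64 ^ L = (1 / 4) ^ L := by
    rw [← mul_pow]; norm_num
  have h256' : (1 / 256 : ℝ) ^ L * 256 ^ L = 1 := by
    rw [← mul_pow]; norm_num
  have hp : (0 : ℝ) < (1 / 256 : ℝ) ^ L := by positivity
  calc _ ≤ (1 / 256 : ℝ) ^ L * (64 ^ L * d + 256 ^ L * (β * d)) := by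
        refine mul_le_mul_of_nonneg_left (hsum.trans ?_) hp.le
        have := mul_le_mul_of_nonneg_right hF' hd0
        linarith
    _ = ((1 / 256 : ℝ) ^ L * 64 ^ L) * d + ((1 / 256 : ℝ) ^ L * 256 ^ L) * (β * d) := by ring
    _ = _ := by rw [h256, h256']; ring

end RC14
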