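import Pool.Agent.H14R2.RC.Defs

namespace RC14
open scoped InnerProductSpace
open Finset

namespace FREE

abbrev Letr := Fin 8 × Bool

lemma step (l : List Letr) :
    ∑ x : Letr, (1 / 4 : ℝ) ^ (FreeGroup.reduce (x :: l)).length ≤
      8 * (1 / 4 : ℝ) ^ (FreeGroup.reduce l).length := by
  cases hl : FreeGroup.reduce l with
  | nil =>
    have : ∀ x : Letr, (FreeGroup.reduce (x :: l)).length = 1 := by
      intro x
      rw [FreeGroup.reduce.cons, hl]
      rfl
    simp only [this]
    rw [Finset.sum_const, Finset.card_univ]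
    simp
    norm_num
  | cons hd tl =>
    have key : ∀ x : Letr, (1 / 4 : ℝ) ^ (FreeGroup.reduce (x :: l)).length =
        (1 / 4 : ℝ) ^ (tl.length + 2) +
          if x = (hd.1, !hd.2) then ((1 / 4 : ℝ) ^ tl.length - (1 / 4 : ℝ) ^ (tl.length + 2))
            else 0 := by
      intro x
      rw [FreeGroup.reduce.cons, hl]
      by_cases hx : x = (hd.1, !hd.2)
      · subst hx
        simp
      · have hx' : ¬ (x.1 = hd.1 ∧ x.2 = !hd.2) := by
          intro h
          exact hx (Prod.ext h.1 h.2)
        simp only [hx, hx', if_false, add_zero]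
        simp
    simp only [key]
    rw [Finset.sum_add_distrib, Finset.sum_const, Finset.card_univ, Finset.sum_ite_eq']
    simp only [Finset.mem_univ, if_true, Fintype.card_prod, Fintype.card_fin, Fintype.card_bool,
      List.length_cons]
    have h0 : (0 : ℝ) < (1 / 4 : ℝ) ^ tl.length := by positivity
    rw [pow_succ, pow_add]
    simp only [nsmul_eq_mul]
    push_cast
    nlinarith

lemma total (t : ℕ) :
    ∑ w : Fin t → Letr, (1 / 4 : ℝ) ^ (FreeGroup.reduce (List.ofFn w)).length ≤ 8 ^ t := by
  induction t with
  | zero => simp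
  | succ t ih =>
    rw [← (Fin.consEquiv (fun _ : Fin (t + 1) => Letr)).sum_comp, Fintype.sum_prod_type_right]
    calc _ ≤ ∑ w : Fin t → Letr, 8 * (1 / 4 : ℝ) ^ (FreeGroup.reduce (List.ofFn w)).length := by
          refine Finset.sum_le_sum fun w _ => ?_
          refine le_trans (le_of_eq ?_) (step (List.ofFn w))
          refine Finset.sum_congr rfl fun x _ => ?_
          simp [Fin.consEquiv, List.ofFn_succ]
      _ = 8 * ∑ w : Fin t → Letr, (1 / 4 : ℝ) ^ (FreeGroup.reduce (List.ofFn w)).length := by
          rw [Finset.mul_sum]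
      _ ≤ 8 * 8 ^ t := by gcongr
      _ = 8 ^ (t + 1) := by ring

end FREE

/-- the number of words of length `2L` in the 16 letters which are trivial in the free group -/
theorem FREE (L : ℕ) :
    Nat.card {w : Fin (2 * L) → Fin 8 × Bool // FreeGroup.mk (List.ofFn w) = 1} ≤ 64 ^ L := by
  classical
  rw [Nat.card_eq_fintype_card, Fintype.card_subtype]
  have h : ((#{w : Fin (2 * L) → Fin 8 × Bool | FreeGroup.mk (List.ofFn w) = 1} : ℕ) : ℝ) ≤
      64 ^ L := by
    have h1 := FREE.total (2 * L)
    rw [pow_mul] at h1
    norm_num at h1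
    refine le_trans ?_ h1
    rw [Finset.card_eq_sum_ones, Finset.sum_filter]
    push_cast
    refine Finset.sum_le_sum fun w _ => ?_
    split_ifs with hw
    · have : FreeGroup.reduce (List.ofFn w) = [] := by
        rw [← FreeGroup.toWord_mk, hw, FreeGroup.toWord_one]
      rw [this]
      simp
    · positivity
  exact_mod_cast h

end RC14
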